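import Mathlib

set_option autoImplicit false

/-!
# From relations over a finite extension to relations over the field
-/

namespace Pool.Agent.L5helper52.LL

open MvPolynomial

variable {K : Subfield ℂ} {k : ℕ}

/-- the matrix of the multiplication with `P` -/
noncomputable def mm {L : IntermediateField K ℂ} {ι : Type} [Fintype ι] (b : Module.Basis ι K L)
    (P : MvPolynomial (Fin k) L) (i j : ι) : MvPolynomial (Fin k) K :=
  ∑ s ∈ P.support, monomial s (b.repr (P.coeff s * b i) j)

theorem coeff_mm {L : IntermediateField K ℂ} {ι : Type} [Fintype ι] (b : Module.Basis ι K L)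
    (P : MvPolynomial (Fin k) L) (i j : ι) (s : Fin k →₀ ℕ) :
    (mm b P i j).coeff s = b.repr (P.coeff s * b i) j := by
  classical
  rw [mm, coeff_sum]
  simp only [coeff_monomial]
  rw [Finset.sum_ite_eq']
  split_ifs with h
  · rfl
  · rw [notMem_support_iff.1 h, zero_mul, map_zero]
    rfl

theorem totalDegree_mm {L : IntermediateField K ℂ} {ι : Type} [Fintype ι] (b : Module.Basis ι K L)
    (P : MvPolynomial (Fin k) L) (i j : ι) : (mm b P i j).totalDegree ≤ P.totalDegree := by
  classical
  rw [totalDegree, Finset.sup_le_iff]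
  intro s hs
  refine le_totalDegree ?_
  rw [mem_support_iff] at hs ⊢
  intro h0
  apply hs
  rw [coeff_mm, h0, zero_mul, map_zero]
  rfl

theorem mm_eq {L : IntermediateField K ℂ} {ι : Type} [Fintype ι] (b : Module.Basis ι K L)
    (P : MvPolynomial (Fin k) L) (i : ι) :
    P * C (b i) = ∑ j, map (algebraMap K L) (mm b P i j) * C (b j) := by
  ext s
  rw [mul_comm, coeff_C_mul, coeff_sum, mul_comm]
  simp only [mul_comm _ (C (b _) : MvPolynomial (Fin k) L), coeff_C_mul, coeff_map, coeff_mm]
  have h := b.sum_repr (P.coeff s * b i)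
  conv_lhs => rw [← h]
  congr 1
  refine Finset.sum_congr rfl fun j _ => ?_
  rw [Algebra.smul_def, mul_comm]

theorem descent {L : IntermediateField K ℂ} [FiniteDimensional K L] (l : Fin k → ℂ)
    (P : MvPolynomial (Fin k) L) (hP : P ≠ 0) (h0 : aeval l P = 0) :
    ∃ R : MvPolynomial (Fin k) K, R ≠ 0 ∧
      R.totalDegree ≤ Module.finrank K L * P.totalDegree ∧ aeval l R = 0 := by
  classical
  let b := Module.finBasis K L
  let M : Matrix (Fin (Module.finrank K L)) (Fin (Module.finrank K L)) (MvPolynomial (Fin k) K) :=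
    Matrix.of (mm b P)
  refine ⟨M.det, ?_, ?_, ?_⟩
  · intro hdet
    obtain ⟨v, hv0, hv⟩ := Matrix.exists_vecMul_eq_zero_iff.2 hdet
    apply hv0
    have h1 : (∑ i, map (algebraMap K L) (v i) * C (b i)) * P = 0 := by
      rw [Finset.sum_mul]
      have h2 : ∀ i, map (algebraMap K L) (v i) * C (b i) * P =
          ∑ j, map (algebraMap K L) (v i * M i j) * C (b j) := by
        intro i
        rw [mul_assoc, mul_comm (C (b i)) P, mm_eq, Finset.mul_sum]
        refine Finset.sum_congr rfl fun j _ => ?_
        rw [map_mul, mul_assoc]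
        rfl
      rw [Finset.sum_congr rfl fun i _ => h2 i, Finset.sum_comm]
      refine Finset.sum_eq_zero fun j _ => ?_
      rw [← Finset.sum_mul, ← map_sum]
      have h3 := congrFun hv j
      have h4 : ∑ i, v i * M i j = 0 := h3
      rw [h4, map_zero, zero_mul]
    have h2 : ∑ i, map (algebraMap K L) (v i) * C (b i) = 0 :=
      (mul_eq_zero.1 h1).resolve_right hP
    funext i
    ext s
    have h3 := congrArg (coeff s) h2
    rw [coeff_sum, coeff_zero] at h3
    simp only [mul_comm _ (C (b _) : MvPolynomial (Fin k) L), coeff_C_mul, coeff_map] at h3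
    have h4 := b.linearIndependent
    rw [Fintype.linearIndependent_iff] at h4
    have h5 := h4 (fun i => (v i).coeff s) (by
      rw [← h3]
      refine Finset.sum_congr rfl fun i _ => ?_
      rw [Algebra.smul_def, mul_comm]) i
    rw [h5]
    simp
  · rw [Matrix.det_apply]
    refine totalDegree_finsetSum_le fun σ _ => ?_
    have h1 : (Equiv.Perm.sign σ • ∏ i, M (σ i) i).totalDegree ≤ (∏ i, M (σ i) i).totalDegree := by
      rcases Int.units_eq_one_or (Equiv.Perm.sign σ) with h | h
      · rw [h, one_smul]
      · rw [h, Units.neg_smul, one_smul, totalDegree_neg]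
    refine h1.trans ((totalDegree_finset_prod _ _).trans ?_)
    calc ∑ i, (M (σ i) i).totalDegree ≤ ∑ _i : Fin (Module.finrank K L), P.totalDegree :=
          Finset.sum_le_sum fun i _ => totalDegree_mm b P (σ i) i
      _ = _ := by rw [Finset.sum_const, Finset.card_univ, Fintype.card_fin, smul_eq_mul]
  · have h1 : aeval l M.det = ((aeval l : MvPolynomial (Fin k) K →ₐ[K] ℂ).toRingHom.mapMatrix M).det := by
      rw [← RingHom.map_det]
      rfl
    rw [h1]
    refine Matrix.exists_mulVec_eq_zero_iff.1 ⟨fun j => ((b j : L) : ℂ), ?_, ?_⟩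
    · intro h
      have hpos : 0 < Module.finrank K L := Module.finrank_pos
      have h2 := congrFun h ⟨0, hpos⟩
      have h3 : b ⟨0, hpos⟩ = 0 := by
        apply Subtype.ext
        exact h2
      exact b.ne_zero _ h3
    · funext i
      have h2 := congrArg (aeval l) (mm_eq b P i)
      rw [map_mul, h0, zero_mul, map_sum] at h2
      rw [Matrix.mulVec, dotProduct]
      show ∑ j, aeval l (M i j) * ((b j : L) : ℂ) = 0
      rw [h2]
      refine Finset.sum_congr rfl fun j _ => ?_
      rw [map_mul, aeval_C, aeval_map_algebraMap]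
      rfl

end Pool.Agent.L5helper52.LL
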