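import Mathlib
import Pool.Agent.L5helper52.LL.Norm
import Pool.Agent.R351.GF.Fin

set_option autoImplicit false

/-!
# Relations between logarithms over simultaneously Liouville fields: the count
-/

namespace Pool.Agent.L5helper52.LL

open MvPolynomial
open Pool.Agent.R351.GF (Sml)

/-- any finitely many elements of `K` have simultaneous rational approximations of every order; in
particular they are real -/
def SL (K : Subfield ℂ) : Prop :=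
  ∀ s : Finset ℂ, (∀ x ∈ s, x ∈ K) → ∀ w q₀ : ℕ, ∃ q : ℕ, q₀ ≤ q ∧ 1 ≤ q ∧
    ∀ x ∈ s, ∃ p : ℤ, ‖(q : ℂ) * x - p‖ < 1 / (q : ℝ) ^ w

/-- the approximating integer polynomial is small at the point -/
theorem sml_of_approx {K : Subfield ℂ} {k δ C : ℕ} {n : Fin k → ℕ} (l : Fin k → ℂ)
    (hl : ∀ i, Complex.exp (l i) = n i) (R : MvPolynomial (Fin k) K) (hR0 : R ≠ 0)
    (hRd : R.totalDegree ≤ δ) (hR : aeval l R = 0) : ∃ J : ℕ, ∀ j q : ℕ, J ≤ j → j ≤ q →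
      (∀ s ∈ R.support, ∃ p : ℤ, ‖(q : ℂ) * ((R.coeff s : K) : ℂ) - p‖ < 1 / (q : ℝ) ^ j) →
      Sml δ ((q : ℝ) ^ 2) (1 / ((q : ℝ) ^ 2) ^ C) n := by
  classical
  obtain ⟨s₀, hs₀⟩ : ∃ s₀, s₀ ∈ R.support := by
    by_contra h
    push Not at h
    exact hR0 (support_eq_empty.1 (Finset.eq_empty_of_forall_notMem h))
  have hc0 : 0 < ‖((R.coeff s₀ : K) : ℂ)‖ := by
    rw [norm_pos_iff]
    intro h
    exact mem_support_iff.1 hs₀ (Subtype.ext h)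
  obtain ⟨M, hM⟩ : ∃ M : ℝ, M = ∑ s ∈ R.support, ‖∏ i, l i ^ s i‖ := ⟨_, rfl⟩
  have hM0 : 0 ≤ M := by rw [hM]; exact Finset.sum_nonneg fun _ _ => norm_nonneg _
  obtain ⟨B, hB⟩ : ∃ B : ℝ, B = ∑ s ∈ R.support, ‖((R.coeff s : K) : ℂ)‖ := ⟨_, rfl⟩
  have hBs : ∀ s ∈ R.support, ‖((R.coeff s : K) : ℂ)‖ ≤ B := fun s hs => by
    rw [hB]
    exact Finset.single_le_sum (f := fun s => ‖((R.coeff s : K) : ℂ)‖) (fun _ _ => norm_nonneg _) hs
  have hB0 : 0 ≤ B := hc0.le.trans (hBs s₀ hs₀)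
  obtain ⟨Λ, hΛ⟩ : ∃ Λ : ℝ, Λ = ∑ i, ‖l i‖ := ⟨_, rfl⟩
  have hΛi : ∀ i, ‖l i‖ ≤ Λ := fun i => by
    rw [hΛ]
    exact Finset.single_le_sum (f := fun i => ‖l i‖) (fun _ _ => norm_nonneg _) (Finset.mem_univ i)
  have hΛ0 : 0 ≤ Λ := by rw [hΛ]; exact Finset.sum_nonneg fun _ _ => norm_nonneg _
  refine ⟨2 * C + ⌈M⌉₊ + ⌈1 / ‖((R.coeff s₀ : K) : ℂ)‖⌉₊ + ⌈B⌉₊ + ⌈Λ⌉₊ + 3, fun j q hj hjq hap => ?_⟩
  have hjr : (2 * C : ℝ) + ⌈M⌉₊ + ⌈1 / ‖((R.coeff s₀ : K) : ℂ)‖⌉₊ + ⌈B⌉₊ + ⌈Λ⌉₊ + 3 ≤ q := by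
    exact_mod_cast hj.trans hjq
  have a1 : M ≤ ⌈M⌉₊ := Nat.le_ceil _
  have a2 : 1 / ‖((R.coeff s₀ : K) : ℂ)‖ ≤ ⌈1 / ‖((R.coeff s₀ : K) : ℂ)‖⌉₊ := Nat.le_ceil _
  have a3 : B ≤ ⌈B⌉₊ := Nat.le_ceil _
  have a4 : Λ ≤ ⌈Λ⌉₊ := Nat.le_ceil _
  have b1 : (0 : ℝ) ≤ ⌈M⌉₊ := Nat.cast_nonneg _
  have b2 : (0 : ℝ) ≤ ⌈1 / ‖((R.coeff s₀ : K) : ℂ)‖⌉₊ := Nat.cast_nonneg _
  have b3 : (0 : ℝ) ≤ ⌈B⌉₊ := Nat.cast_nonneg _
  have b4 : (0 : ℝ) ≤ ⌈Λ⌉₊ := Nat.cast_nonneg _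
  have b5 : (0 : ℝ) ≤ C := Nat.cast_nonneg _
  have hq1 : (1 : ℝ) ≤ q := by linarith
  have hq0 : (0 : ℝ) < q := by linarith
  have hsmall : 1 / (q : ℝ) ^ j ≤ 1 := by
    rw [div_le_one (by positivity)]
    exact one_le_pow₀ hq1
  have hex : ∀ s : Fin k →₀ ℕ, ∃ p : ℤ, s ∈ R.support →
      ‖(q : ℂ) * ((R.coeff s : K) : ℂ) - p‖ < 1 / (q : ℝ) ^ j := by
    intro s
    by_cases hs : s ∈ R.support
    · obtain ⟨p, hp⟩ := hap s hs
      exact ⟨p, fun _ => hp⟩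
    · exact ⟨0, fun h => absurd h hs⟩
  choose p hp using hex
  obtain ⟨P, hP⟩ : ∃ P : MvPolynomial (Fin k) ℤ, P = ∑ s ∈ R.support, monomial s (p s) := ⟨_, rfl⟩
  have hPc : ∀ s, P.coeff s = if s ∈ R.support then p s else 0 := by
    intro s
    rw [hP, coeff_sum]
    simp only [coeff_monomial]
    rw [Finset.sum_ite_eq']
  have hnorm : ∀ s ∈ R.support, ‖((p s : ℤ) : ℂ)‖ ≤ q * ‖((R.coeff s : K) : ℂ)‖ + 1 := by
    intro s hs
    have h1 : ‖((p s : ℤ) : ℂ)‖ ≤ ‖(q : ℂ) * ((R.coeff s : K) : ℂ)‖ +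
        ‖(q : ℂ) * ((R.coeff s : K) : ℂ) - p s‖ := by
      have h2 := norm_sub_le ((q : ℂ) * ((R.coeff s : K) : ℂ)) ((q : ℂ) * ((R.coeff s : K) : ℂ) - p s)
      rwa [sub_sub_cancel] at h2
    rw [norm_mul, Complex.norm_natCast] at h1
    have h3 := hp s hs
    linarith
  refine ⟨l, hl, fun i => ?_, P, ?_, ?_, fun s => ?_, ?_⟩
  · have h1 := (Complex.abs_im_le_norm (l i)).trans (hΛi i)
    nlinarith
  · intro h0
    have h1 := hPc s₀
    rw [h0, coeff_zero, if_pos hs₀] at h1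
    have h2 := hp s₀ hs₀
    rw [← h1, Int.cast_zero, sub_zero, norm_mul, Complex.norm_natCast] at h2
    have h3 : 1 / ‖((R.coeff s₀ : K) : ℂ)‖ < q := by linarith
    rw [div_lt_iff₀ hc0] at h3
    linarith
  · refine le_trans ?_ hRd
    rw [totalDegree, Finset.sup_le_iff]
    intro s hs
    refine le_totalDegree ?_
    by_contra h
    rw [mem_support_iff, hPc, if_neg h] at hs
    exact hs rfl
  · rw [hPc]
    split_ifs with hs
    · have h1 := hnorm s hs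
      rw [Complex.norm_intCast] at h1
      have h2 := hBs s hs
      nlinarith
    · rw [Int.cast_zero, abs_zero]
      positivity
  · have e1 : aeval l P = ∑ s ∈ R.support, ((p s : ℤ) : ℂ) * ∏ i, l i ^ s i := by
      rw [hP, map_sum]
      refine Finset.sum_congr rfl fun s _ => ?_
      rw [aeval_monomial, Finsupp.prod_fintype _ _ (fun i => pow_zero _)]
      simp
    have e2 : ∑ s ∈ R.support, ((R.coeff s : K) : ℂ) * ∏ i, l i ^ s i = 0 := by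
      rw [← hR]
      conv_rhs => rw [R.as_sum, map_sum]
      refine Finset.sum_congr rfl fun s _ => ?_
      rw [aeval_monomial, Finsupp.prod_fintype _ _ (fun i => pow_zero _)]
      rfl
    have e3 : aeval l P = -∑ s ∈ R.support, ((q : ℂ) * ((R.coeff s : K) : ℂ) - p s) * ∏ i, l i ^ s i := by
      simp only [sub_mul, Finset.sum_sub_distrib]
      have h1 : ∑ s ∈ R.support, (q : ℂ) * ((R.coeff s : K) : ℂ) * ∏ i, l i ^ s i =
          q * ∑ s ∈ R.support, ((R.coeff s : K) : ℂ) * ∏ i, l i ^ s i := by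
        rw [Finset.mul_sum]
        exact Finset.sum_congr rfl fun s _ => mul_assoc _ _ _
      rw [h1, e2, e1]
      ring
    rw [e3, norm_neg]
    have h1 : ‖∑ s ∈ R.support, ((q : ℂ) * ((R.coeff s : K) : ℂ) - p s) * ∏ i, l i ^ s i‖ ≤
        1 / (q : ℝ) ^ j * M := by
      refine (norm_sum_le _ _).trans ?_
      rw [hM, Finset.mul_sum]
      refine Finset.sum_le_sum fun s hs => ?_
      rw [norm_mul]
      exact mul_le_mul_of_nonneg_right (hp s hs).le (norm_nonneg _)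
    refine lt_of_le_of_lt h1 ?_
    have h2 : M < q := by linarith
    have h3 : (q : ℝ) ^ (2 * C + 1) ≤ (q : ℝ) ^ j := pow_le_pow_right₀ hq1 (by omega)
    have h4 : 0 < (q : ℝ) ^ j := by positivity
    rw [← pow_mul, div_mul_eq_mul_div, one_mul, div_lt_div_iff₀ h4 (by positivity), one_mul]
    calc M * (q : ℝ) ^ (2 * C) < q * (q : ℝ) ^ (2 * C) :=
          mul_lt_mul_of_pos_right h2 (by positivity)
      _ = (q : ℝ) ^ (2 * C + 1) := by rw [pow_succ, mul_comm]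
      _ ≤ _ := h3

/-- the tuples `n` for which some logarithms of the `n i` satisfy a nonzero polynomial relation of total
degree at most `d` over an extension of `K` of degree at most `e` -/
def Rel (K : Subfield ℂ) (d e : ℕ) {k : ℕ} (n : Fin k → ℕ) : Prop :=
  ∃ l : Fin k → ℂ, (∀ i, Complex.exp (l i) = n i) ∧ ∃ L : IntermediateField K ℂ,
    FiniteDimensional K L ∧ Module.finrank K L ≤ e ∧
      ∃ P : MvPolynomial (Fin k) L, P ≠ 0 ∧ P.totalDegree ≤ d ∧ aeval l P = 0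

open Classical in
/-- **The count.** -/
theorem count (k d e : ℕ) : ∃ C : ℕ, 0 < C ∧ ∀ K : Subfield ℂ, SL K → ∀ T : ℕ, 1 ≤ T →
    (((Fintype.piFinset fun _ : Fin k => Finset.Ioc 0 T).filter fun n => Rel K d e n).card : ℝ) ≤
      C * (T : ℝ) ^ ((k : ℝ) - 1 / C) := by
  obtain ⟨C, hC, hmain⟩ := Pool.Agent.R351.GF.main_range k (e * d)
  refine ⟨C, hC, fun K hK T hT => ?_⟩
  obtain ⟨Bad, hBad⟩ : ∃ Bad : Finset (Fin k → ℕ),
    Bad = (Fintype.piFinset fun _ : Fin k => Finset.Ioc 0 T).filter fun n => Rel K d e n := ⟨_, rfl⟩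
  rw [← hBad]
  have hex : ∀ n : Fin k → ℕ, ∃ (l : Fin k → ℂ) (R : MvPolynomial (Fin k) K), n ∈ Bad →
      (∀ i, Complex.exp (l i) = n i) ∧ R ≠ 0 ∧ R.totalDegree ≤ e * d ∧ aeval l R = 0 := by
    intro n
    by_cases hn : n ∈ Bad
    · have hn' := hn
      rw [hBad, Finset.mem_filter] at hn'
      obtain ⟨l, hl, L, hL, hLe, P, hP, hPd, hP0⟩ := hn'.2
      obtain ⟨R, hR, hRd, hR0⟩ := descent l P hP hP0
      exact ⟨l, R, fun _ => ⟨hl, hR, hRd.trans (Nat.mul_le_mul hLe hPd), hR0⟩⟩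
    · exact ⟨fun _ => 0, 0, fun h => absurd h hn⟩
  choose l R hlR using hex
  -- all coefficients
  set s : Finset ℂ := Bad.biUnion fun n => (R n).support.image fun a => (((R n).coeff a : K) : ℂ) with hs
  have hsK : ∀ x ∈ s, x ∈ K := by
    intro x hx
    obtain ⟨n, -, hx⟩ := Finset.mem_biUnion.1 hx
    obtain ⟨a, -, rfl⟩ := Finset.mem_image.1 hx
    exact ((R n).coeff a).2
  choose q hq1 hq2 hq3 using fun j : ℕ => hK s hsK j j
  have hunb : ¬ BddAbove (Set.range fun j : ℕ => ((q j : ℕ) : ℝ) ^ 2) := by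
    rintro ⟨B, hB⟩
    have h1 := hB (Set.mem_range_self (⌈|B|⌉₊ + 2))
    have h2 : ((⌈|B|⌉₊ + 2 : ℕ) : ℝ) ≤ q (⌈|B|⌉₊ + 2) := by exact_mod_cast hq1 _
    push_cast at h2
    have h3 := Nat.le_ceil |B|
    have h4 := le_abs_self B
    have h5 := abs_nonneg B
    have h6 : (0 : ℝ) ≤ ⌈|B|⌉₊ := Nat.cast_nonneg _
    nlinarith
  have h3 := (hmain T hT).2.2 _ hunb
  refine le_trans ?_ h3
  have hsub : Bad ⊆ (Fintype.piFinset fun _ : Fin k => Finset.Ioc 0 T).filter fun n =>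
      ∃ H₀ : ℝ, ∀ H ∈ Set.range fun j : ℕ => ((q j : ℕ) : ℝ) ^ 2, H₀ ≤ H →
        Sml (e * d) H (1 / H ^ C) n := by
    intro n hn
    have hn' := hn
    rw [hBad, Finset.mem_filter] at hn'
    rw [Finset.mem_filter]
    refine ⟨hn'.1, ?_⟩
    obtain ⟨hl, hR0, hRd, hR⟩ := hlR n hn
    obtain ⟨J, hJ⟩ := sml_of_approx (C := C) (l n) hl (R n) hR0 hRd hR
    refine ⟨∑ j ∈ Finset.range J, ((q j : ℕ) : ℝ) ^ 2 + 1, ?_⟩
    rintro _ ⟨j, rfl⟩ hH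
    have hjJ : J ≤ j := by
      by_contra hlt
      push Not at hlt
      have h5 : ((q j : ℕ) : ℝ) ^ 2 ≤ ∑ j ∈ Finset.range J, ((q j : ℕ) : ℝ) ^ 2 :=
        Finset.single_le_sum (f := fun j => ((q j : ℕ) : ℝ) ^ 2) (fun _ _ => by positivity)
          (Finset.mem_range.2 hlt)
      simp only at hH
      linarith
    refine hJ j (q j) hjJ (hq1 j) fun a ha => ?_
    exact hq3 j _ (Finset.mem_biUnion.2 ⟨n, hn, Finset.mem_image_of_mem _ ha⟩)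
  exact_mod_cast Finset.card_le_card hsub

end Pool.Agent.L5helper52.LL
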