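import Pool.Agent.L5helper52.LL.Cnt
import Pool.Agent.Q163.LE.Sim

/-!
# The numbers `∑_{n ∈ A} 10 ^ (-n!)` are in one simultaneously Liouville field
-/

set_option autoImplicit false

open Filter Topology

namespace Pool.Agent.L5helper52.LL

/-- `∑_{n ∈ A} 10 ^ (-n!)` -/
noncomputable def lsum (A : Set ℕ) : ℝ := ∑' n : ℕ, A.indicator (fun n => 1 / (10 : ℝ) ^ n.factorial) n

theorem summable_full : Summable fun n : ℕ => 1 / (10 : ℝ) ^ n.factorial :=
  LiouvilleNumber.summable (by norm_num)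

theorem summable_ind (A : Set ℕ) : Summable (A.indicator fun n : ℕ => 1 / (10 : ℝ) ^ n.factorial) :=
  summable_full.indicator A

theorem tail_bounds (A : Set ℕ) (n : ℕ) :
    |lsum A - ∑ m ∈ Finset.range (n + 1), A.indicator (fun n => 1 / (10 : ℝ) ^ n.factorial) m| ≤
      10 * (1 / (10 : ℝ) ^ (n + 1).factorial) := by
  have h1 := (summable_ind A).sum_add_tsum_nat_add (n + 1)
  have h2 : lsum A - ∑ m ∈ Finset.range (n + 1), A.indicator (fun n => 1 / (10 : ℝ) ^ n.factorial) m =
      ∑' m : ℕ, A.indicator (fun n => 1 / (10 : ℝ) ^ n.factorial) (m + (n + 1)) := by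
    unfold lsum
    rw [← h1]
    ring
  rw [h2]
  have h3 : ∀ m, 0 ≤ A.indicator (fun n => 1 / (10 : ℝ) ^ n.factorial) m := fun m =>
    Set.indicator_nonneg (fun _ _ => by positivity) _
  have h4 : ∀ m, A.indicator (fun n => 1 / (10 : ℝ) ^ n.factorial) m ≤ 1 / (10 : ℝ) ^ m.factorial := fun m =>
    Set.indicator_le_self' (fun _ _ => by positivity) _
  rw [abs_of_nonneg (tsum_nonneg fun m => h3 _)]
  have h5 : ∑' m : ℕ, A.indicator (fun n => 1 / (10 : ℝ) ^ n.factorial) (m + (n + 1)) ≤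
      ∑' m : ℕ, 1 / (10 : ℝ) ^ (m + (n + 1)).factorial :=
    Summable.tsum_le_tsum (fun m => h4 _) ((summable_nat_add_iff (n + 1)).2 (summable_ind A))
      ((summable_nat_add_iff (f := fun n : ℕ => 1 / (10 : ℝ) ^ n.factorial) (n + 1)).2 summable_full)
  have h6 := LiouvilleNumber.remainder_lt' n (m := (10 : ℝ)) (by norm_num)
  have h7 : LiouvilleNumber.remainder (10 : ℝ) n = ∑' m : ℕ, 1 / (10 : ℝ) ^ (m + (n + 1)).factorial := rfl
  rw [← h7] at h5
  refine h5.trans (h6.le.trans ?_)
  refine mul_le_mul_of_nonneg_right (by norm_num) (by positivity)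

theorem ap_lsum (A : Set ℕ) :
    Pool.Agent.Q163.LE.Ap (fun n : ℕ => (n.factorial : ℝ) * Real.log 10) (lsum A) := by
  classical
  have hexp : ∀ (a n : ℕ), Real.exp (a * ((n.factorial : ℝ) * Real.log 10)) = (10 : ℝ) ^ (a * n.factorial) := by
    intro a n
    have : (a : ℝ) * ((n.factorial : ℝ) * Real.log 10) = ((a * n.factorial : ℕ) : ℝ) * Real.log 10 := by
      push_cast; ring
    rw [this, ← Real.log_pow, Real.exp_log (by positivity)]
  refine ⟨2, by norm_num, fun E => ?_⟩
  filter_upwards [Filter.eventually_ge_atTop (⌈E⌉₊ + 1)] with n hn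
  have h2 : Real.exp (2 * ((n.factorial : ℝ) * Real.log 10)) = (10 : ℝ) ^ (2 * n.factorial) := by
    have := hexp 2 n
    push_cast at this
    exact this
  have hfac : ∀ m ∈ Finset.range (n + 1), m.factorial ≤ n.factorial := fun m hm =>
    Nat.factorial_le (Nat.lt_succ_iff.1 (Finset.mem_range.1 hm))
  refine ⟨∑ m ∈ Finset.range (n + 1), if m ∈ A then 10 ^ (n.factorial - m.factorial) else 0, 10 ^ n.factorial,
    by positivity, ?_, ?_, ?_⟩
  · rw [h2]
    have h3 : |((∑ m ∈ Finset.range (n + 1), if m ∈ A then (10 : ℤ) ^ (n.factorial - m.factorial) else 0 : ℤ) : ℝ)| ≤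
        (n + 1) * (10 : ℝ) ^ n.factorial := by
      push_cast
      refine (Finset.abs_sum_le_sum_abs _ _).trans ?_
      refine (Finset.sum_le_card_nsmul _ _ ((10 : ℝ) ^ n.factorial) fun m _ => ?_).trans (le_of_eq ?_)
      · split_ifs
        · rw [abs_of_nonneg (by positivity)]
          exact pow_le_pow_right₀ (by norm_num) (Nat.sub_le _ _)
        · rw [abs_zero]
          positivity
      · rw [Finset.card_range, nsmul_eq_mul]
        push_cast
        ring
    refine h3.trans ?_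
    have h4 : (n : ℝ) + 1 ≤ (10 : ℝ) ^ n.factorial := by
      have h5 : n + 1 ≤ 10 ^ n.factorial := by
        calc n + 1 ≤ 2 ^ n := Nat.lt_two_pow_self
          _ ≤ 10 ^ n := Nat.pow_le_pow_left (by norm_num) _
          _ ≤ 10 ^ n.factorial := Nat.pow_le_pow_right (by norm_num) (Nat.self_le_factorial n)
      exact_mod_cast h5
    rw [two_mul, pow_add]
    exact mul_le_mul_of_nonneg_right h4 (by positivity)
  · rw [h2]
    push_cast
    rw [abs_of_nonneg (by positivity)]
    exact pow_le_pow_right₀ (by norm_num) (by omega)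
  · have h3 : ((∑ m ∈ Finset.range (n + 1), if m ∈ A then (10 : ℤ) ^ (n.factorial - m.factorial) else 0 : ℤ) : ℝ) /
        ((10 ^ n.factorial : ℤ) : ℝ) =
        ∑ m ∈ Finset.range (n + 1), A.indicator (fun n => 1 / (10 : ℝ) ^ n.factorial) m := by
      push_cast
      rw [Finset.sum_div]
      refine Finset.sum_congr rfl fun m hm => ?_
      by_cases h : m ∈ A
      · rw [if_pos h, Set.indicator_of_mem h]
        have h4 : (10 : ℝ) ^ n.factorial = 10 ^ (n.factorial - m.factorial) * 10 ^ m.factorial := by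
          rw [← pow_add, Nat.sub_add_cancel (hfac m hm)]
        rw [h4]
        field_simp
      · rw [if_neg h, Set.indicator_of_notMem h, zero_div]
    rw [h3]
    refine (tail_bounds A n).trans ?_
    have hE : E ≤ ⌈E⌉₊ := Nat.le_ceil E
    have h4 : Real.exp (-(⌈E⌉₊ * ((n.factorial : ℝ) * Real.log 10))) ≤
        Real.exp (-(E * ((n.factorial : ℝ) * Real.log 10))) := by
      refine Real.exp_le_exp.2 (neg_le_neg (mul_le_mul_of_nonneg_right hE ?_))
      have : 0 ≤ Real.log 10 := Real.log_nonneg (by norm_num)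
      positivity
    refine le_trans ?_ h4
    rw [Real.exp_neg, hexp, mul_one_div, div_le_iff₀ (by positivity), ← div_eq_inv_mul,
      le_div_iff₀ (by positivity)]
    have h5 : (10 : ℝ) * (10 : ℝ) ^ (⌈E⌉₊ * n.factorial) = (10 : ℝ) ^ (⌈E⌉₊ * n.factorial + 1) := by
      rw [pow_succ]; ring
    rw [h5]
    refine pow_le_pow_right₀ (by norm_num) ?_
    rw [Nat.factorial_succ]
    have h6 : 1 ≤ n.factorial := Nat.factorial_pos n
    have h7 : (⌈E⌉₊ + 1) * n.factorial ≤ (n + 1) * n.factorial := Nat.mul_le_mul_right _ (by omega)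
    have h8 : (⌈E⌉₊ + 1) * n.factorial = ⌈E⌉₊ * n.factorial + n.factorial := by ring
    omega

/-- one simultaneously Liouville field contains all the numbers `∑_{n ∈ A} 10 ^ (-n!)` -/
theorem exists_SL : ∃ K : Subfield ℂ, SL K ∧ ∀ A : Set ℕ, ((lsum A : ℝ) : ℂ) ∈ K := by
  classical
  have hT : Tendsto (fun n : ℕ => (n.factorial : ℝ) * Real.log 10) atTop atTop := by
    refine Tendsto.atTop_mul_const (Real.log_pos (by norm_num)) ?_
    refine tendsto_natCast_atTop_atTop.comp ?_
    exact tendsto_atTop_mono Nat.self_le_factorial tendsto_id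
  refine ⟨(Pool.Agent.Q163.LE.ApField _ hT).map Complex.ofRealHom, fun s hs w q₀ => ?_, fun A => ?_⟩
  · have hre : ∀ x ∈ s, x.re ∈ Pool.Agent.Q163.LE.ApField _ hT ∧ (x.re : ℂ) = x := by
      intro x hx
      obtain ⟨y, hy, hyx⟩ := Subfield.mem_map.1 (hs x hx)
      have h1 : ((y : ℝ) : ℂ) = x := hyx
      rw [← h1, Complex.ofReal_re]
      exact ⟨hy, rfl⟩
    obtain ⟨q, h1, h2, h3⟩ := Pool.Agent.Q163.LE.sim_apField _ hT (s.image Complex.re)
      (fun y hy => by
        obtain ⟨x, hx, rfl⟩ := Finset.mem_image.1 hy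
        exact (hre x hx).1) w q₀
    refine ⟨q, h1, h2, fun x hx => ?_⟩
    obtain ⟨p, hp⟩ := h3 x.re (Finset.mem_image_of_mem _ hx)
    refine ⟨p, ?_⟩
    have h4 : (q : ℂ) * x - p = (((q : ℝ) * x.re - p : ℝ) : ℂ) := by
      push_cast
      rw [(hre x hx).2]
    rw [h4, Complex.norm_real, Real.norm_eq_abs]
    exact hp
  · exact Subfield.mem_map.2 ⟨lsum A, ap_lsum A, rfl⟩

end Pool.Agent.L5helper52.LL
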